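import Mathlib

/-!
# A quasigroup of order 17 satisfying `xy·y = x·xy`

The operation is `x ∘ y = x + f (y - x)` on `ℤ/17`, where `f` is the table below, found with a SAT
solver among the quasigroups of order 17 which have a cyclic automorphism of order 17.
-/

set_option autoImplicit false

namespace Pool.Agent.Results.MP_ab03e0_co.OrderSeventeen

/-- the first row of the quasigroup -/
def f : Fin 17 → Fin 17 := ![0, 5, 10, 8, 3, 2, 16, 13, 6, 11, 4, 1, 15, 14, 9, 7, 12]

/-- the operation -/
def op (x y : Fin 17) : Fin 17 := x + f (y - x)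

set_option maxRecDepth 100000 in
/-- **There is a quasigroup of order 17 satisfying `xy·y = x·xy`**: a binary operation on a
17-element set such that `a ∘ x = b` and `x ∘ a = b` have exactly one solution for all `a, b`, and
`(x ∘ y) ∘ y = x ∘ (x ∘ y)` for all `x, y`. -/
theorem result : ∃ op : Fin 17 → Fin 17 → Fin 17,
    (∀ a b, ∃! x, op a x = b) ∧ (∀ a b, ∃! x, op x a = b) ∧
      ∀ x y, op (op x y) y = op x (op x y) := by
  have hl : ∀ a, Function.Injective (fun x => op a x) := by
    intro a x y
    revert a x y
    decide +kernel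
  have hr : ∀ a, Function.Injective (fun x => op x a) := by
    intro a x y
    revert a x y
    decide +kernel
  refine ⟨op, fun a b => ?_, fun a b => ?_, by decide +kernel⟩
  · obtain ⟨x, hx⟩ := (Finite.injective_iff_surjective.1 (hl a)) b
    exact ⟨x, hx, fun y hy => hl a (hy.trans hx.symm)⟩
  · obtain ⟨x, hx⟩ := (Finite.injective_iff_surjective.1 (hr a)) b
    exact ⟨x, hx, fun y hy => hr a (hy.trans hx.symm)⟩

end Pool.Agent.Results.MP_ab03e0_co.OrderSeventeen
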